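import Pool.Agent.H81.NS.Defs

/-!
Elementary algebra of the visual measures (problem MP_90715c_gt, NoSeparation).
-/

open Matrix Set Filter Topology MeasureTheory

namespace Pool.Agent.H81.NS.B

open Pool.Agent.H90.WC Pool.Agent.H81.TG

variable {X Y Z W : Set (OnePoint ℂ)} {g h k : G}

/-! ### Translates -/

lemma mv_def (g : G) (X : Set (OnePoint ℂ)) : mv g X = act g⁻¹ ⁻¹' X := rfl

lemma mem_mv {x : OnePoint ℂ} : x ∈ mv g X ↔ act g⁻¹ x ∈ X := Iff.rfl

@[simp] lemma mv_one (X : Set (OnePoint ℂ)) : mv 1 X = X := by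
  ext x
  rw [mem_mv, inv_one, act_one]

lemma mv_mul (g h : G) (X : Set (OnePoint ℂ)) : mv (g * h) X = mv g (mv h X) := by
  ext x
  rw [mem_mv, mem_mv, mem_mv, _root_.mul_inv_rev, act_mul]

lemma mv_neg (g : G) (X : Set (OnePoint ℂ)) : mv (-g) X = mv g X := by
  ext x
  rw [mem_mv, mem_mv]
  have e : (-g)⁻¹ = -g⁻¹ := by
    rw [inv_eq_iff_mul_eq_one]
    rw [neg_mul_neg, mul_inv_cancel]
  rw [e, act_neg]

@[simp] lemma mv_inv_mv (g : G) (X : Set (OnePoint ℂ)) : mv g⁻¹ (mv g X) = X := by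
  rw [← mv_mul, inv_mul_cancel, mv_one]

@[simp] lemma mv_mv_inv (g : G) (X : Set (OnePoint ℂ)) : mv g (mv g⁻¹ X) = X := by
  rw [← mv_mul, mul_inv_cancel, mv_one]

lemma mv_compl (g : G) (X : Set (OnePoint ℂ)) : mv g Xᶜ = (mv g X)ᶜ := rfl
lemma mv_diff (g : G) (X Y : Set (OnePoint ℂ)) : mv g (X \ Y) = mv g X \ mv g Y := rfl
lemma mv_inter (g : G) (X Y : Set (OnePoint ℂ)) : mv g (X ∩ Y) = mv g X ∩ mv g Y := rfl
lemma mv_union (g : G) (X Y : Set (OnePoint ℂ)) : mv g (X ∪ Y) = mv g X ∪ mv g Y := rfl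
lemma mv_symm (g : G) (X Y : Set (OnePoint ℂ)) :
    mv g (symmDiff X Y) = symmDiff (mv g X) (mv g Y) := rfl

lemma mv_mono (g : G) (h : X ⊆ Y) : mv g X ⊆ mv g Y := preimage_mono h

lemma meas_act (k : G) (hX : MeasurableSet X) : MeasurableSet (act k ⁻¹' X) :=
  (continuous_act k).measurable hX

lemma meas_mv (g : G) (hX : MeasurableSet X) : MeasurableSet (mv g X) := meas_act g⁻¹ hX

lemma lam_mv (g k : G) (X : Set (OnePoint ℂ)) : lam (g * k) (mv g X) = lam k X := by
  unfold lam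
  congr 2
  ext x
  rw [mem_preimage, mem_mv, ← act_mul, inv_mul_cancel_left, mem_preimage]

lemma lam_mv' (g k : G) (X : Set (OnePoint ℂ)) : lam k (mv g X) = lam (g⁻¹ * k) X := by
  rw [← lam_mv g (g⁻¹ * k), mul_inv_cancel_left]

lemma lam_one_mv (g : G) (X : Set (OnePoint ℂ)) : lam 1 (mv g X) = lam g⁻¹ X := by
  rw [lam_mv', mul_one]

/-! ### The visual measures are probability measures -/

theorem prob (T : Tool) : IsProbabilityMeasure mu := by
  have h1 := T.pos univ isOpen_univ univ_nonempty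
  unfold lam at h1
  rw [preimage_univ] at h1
  have h2 : mu univ = (mu0 univ)⁻¹ * mu0 univ := by
    unfold mu
    rw [Measure.smul_apply, smul_eq_mul]
  have h3 : mu0 univ ≠ 0 := by
    intro h0
    rw [h2, h0, mul_zero] at h1
    simp at h1
  have h4 : mu0 univ ≠ ⊤ := by
    intro h0
    rw [h2, h0, ENNReal.inv_top, zero_mul] at h1
    simp at h1
  exact ⟨by rw [h2, ENNReal.inv_mul_cancel h3 h4]⟩

lemma lam_eq (k : G) (X : Set (OnePoint ℂ)) : lam k X = mu.real (act k ⁻¹' X) := rfl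

lemma lam_nonneg (k : G) (X : Set (OnePoint ℂ)) : 0 ≤ lam k X := ENNReal.toReal_nonneg

@[simp] lemma lam_empty (k : G) : lam k ∅ = 0 := by simp [lam]

lemma lam_univ (T : Tool) (k : G) : lam k univ = 1 := by
  have := prob T
  rw [lam_eq, preimage_univ, probReal_univ]

lemma lam_mono (T : Tool) (k : G) (h : X ⊆ Y) : lam k X ≤ lam k Y := by
  have := prob T
  exact measureReal_mono (preimage_mono h)

lemma lam_le_one (T : Tool) (k : G) (X : Set (OnePoint ℂ)) : lam k X ≤ 1 := by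
  rw [← lam_univ T k]
  exact lam_mono T k (subset_univ X)

lemma lam_union_le (T : Tool) (k : G) (X Y : Set (OnePoint ℂ)) :
    lam k (X ∪ Y) ≤ lam k X + lam k Y := by
  have := prob T
  exact measureReal_union_le _ _

lemma lam_inter_add_diff (T : Tool) (k : G) (X : Set (OnePoint ℂ)) (hY : MeasurableSet Y) :
    lam k (X ∩ Y) + lam k (X \ Y) = lam k X := by
  have := prob T
  exact measureReal_inter_add_diff (meas_act k hY)

lemma lam_compl (T : Tool) (k : G) (hX : MeasurableSet X) : lam k Xᶜ = 1 - lam k X := by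
  have := lam_inter_add_diff T k univ hX
  rw [univ_inter, ← compl_eq_univ_diff, lam_univ T] at this
  linarith

lemma lam_diff (T : Tool) (k : G) (hX : MeasurableSet X) (h : X ⊆ Y) :
    lam k (Y \ X) = lam k Y - lam k X := by
  have := lam_inter_add_diff T k Y hX
  rw [inter_eq_right.2 h] at this
  linarith

/-- Subadditivity with three sets: `lam (X \ Z) ≤ lam (X \ Y) + lam (Y \ Z)`. -/
lemma lam_diff_tri (T : Tool) (k : G) (X Y Z : Set (OnePoint ℂ)) :
    lam k (X \ Z) ≤ lam k (X \ Y) + lam k (Y \ Z) := by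
  refine (lam_mono T k ?_).trans (lam_union_le T k _ _)
  intro x hx
  by_cases h : x ∈ Y
  · exact Or.inr ⟨h, hx.2⟩
  · exact Or.inl ⟨hx.1, h⟩

lemma lam_diff_le (T : Tool) (k : G) (X Y : Set (OnePoint ℂ)) : lam k (X \ Y) ≤ lam k X :=
  lam_mono T k diff_subset

lemma lam_le_add_diff (T : Tool) (k : G) (X Y : Set (OnePoint ℂ)) :
    lam k X ≤ lam k Y + lam k (X \ Y) := by
  refine (lam_mono T k ?_).trans (lam_union_le T k _ _)
  intro x hx
  by_cases h : x ∈ Y
  · exact Or.inl h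
  · exact Or.inr ⟨hx, h⟩

lemma lam_sd_comm (k : G) (X Y : Set (OnePoint ℂ)) :
    lam k (symmDiff X Y) = lam k (symmDiff Y X) := by rw [symmDiff_comm]

lemma lam_sd_tri (T : Tool) (k : G) (X Y Z : Set (OnePoint ℂ)) :
    lam k (symmDiff X Z) ≤ lam k (symmDiff X Y) + lam k (symmDiff Y Z) :=
  (lam_mono T k (symmDiff_triangle X Y Z)).trans (lam_union_le T k _ _)

lemma lam_diff_le_sd (T : Tool) (k : G) (X Y : Set (OnePoint ℂ)) :
    lam k (X \ Y) ≤ lam k (symmDiff X Y) := lam_mono T k subset_union_left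

lemma lam_diff_le_sd' (T : Tool) (k : G) (X Y : Set (OnePoint ℂ)) :
    lam k (Y \ X) ≤ lam k (symmDiff X Y) := lam_mono T k subset_union_right

lemma lam_sd_eq (T : Tool) (k : G) (hX : MeasurableSet X) (hY : MeasurableSet Y) :
    lam k (symmDiff X Y) = lam k (X \ Y) + lam k (Y \ X) := by
  have := prob T
  have h1 := lam_inter_add_diff T k (symmDiff X Y) hX
  have e1 : symmDiff X Y ∩ X = X \ Y := by
    ext x; simp [symmDiff_def]; tauto
  have e2 : symmDiff X Y \ X = Y \ X := by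
    ext x; simp [symmDiff_def]; tauto
  rw [e1, e2] at h1
  exact h1.symm

lemma lam_sd_le (T : Tool) (k : G) (X Y : Set (OnePoint ℂ)) :
    lam k (symmDiff X Y) ≤ lam k (X \ Y) + lam k (Y \ X) := lam_union_le T k _ _

/-- Change of the first set in a positive or small intersection and so on. -/
lemma lam_le_sd (T : Tool) (k : G) (X Y : Set (OnePoint ℂ)) :
    lam k X ≤ lam k Y + lam k (symmDiff X Y) :=
  (lam_le_add_diff T k X Y).trans (by have := lam_diff_le_sd T k X Y; linarith)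

lemma sd_compl (X Y : Set (OnePoint ℂ)) : symmDiff Xᶜ Yᶜ = symmDiff X Y := by
  ext x; simp [symmDiff_def]; tauto

/-! ### Null sets do not depend on the frame -/

lemma lam_zero_iff (T : Tool) (k : G) (hX : MeasurableSet X) : lam k X = 0 ↔ lam 1 X = 0 := by
  constructor
  · intro h
    obtain ⟨c, hc1, hc⟩ := T.har {k⁻¹} isCompact_singleton
    have := hc k k⁻¹ rfl X hX
    rw [mul_inv_cancel, h, mul_zero] at this
    exact le_antisymm this (lam_nonneg _ _)
  · intro h
    obtain ⟨c, hc1, hc⟩ := T.har {k} isCompact_singleton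
    have := hc 1 k rfl X hX
    rw [one_mul, h, mul_zero] at this
    exact le_antisymm this (lam_nonneg _ _)

lemma lam_pos_iff (T : Tool) (k : G) (hX : MeasurableSet X) : 0 < lam k X ↔ 0 < lam 1 X := by
  have h := lam_zero_iff T k hX
  constructor
  · intro h1
    refine lt_of_le_of_ne (lam_nonneg _ _) fun h2 => ?_
    exact h1.ne' (h.2 h2.symm)
  · intro h1
    refine lt_of_le_of_ne (lam_nonneg _ _) fun h2 => ?_
    exact h1.ne' (h.1 h2.symm)

/-- The measure of a translate is small when the measure of the set is small. -/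
lemma lam_mv_le (T : Tool) (g : G) : ∃ c : ℝ, 1 ≤ c ∧ ∀ X, MeasurableSet X →
    lam 1 (mv g X) ≤ c * lam 1 X := by
  obtain ⟨c, hc1, hc⟩ := T.har {g⁻¹} isCompact_singleton
  refine ⟨c, hc1, fun X hX => ?_⟩
  have := hc 1 g⁻¹ rfl X hX
  rw [one_mul] at this
  rw [lam_one_mv]
  exact this

/-! ### Inclusion modulo null sets -/

lemma sub_of_subset (h : X ⊆ Y) : Sub X Y := by
  unfold Sub
  rw [diff_eq_empty.2 h, lam_empty]

lemma sub_refl (X : Set (OnePoint ℂ)) : Sub X X := sub_of_subset subset_rfl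

lemma sub_trans (T : Tool) (h1 : Sub X Y) (h2 : Sub Y Z) : Sub X Z := by
  have h := lam_diff_tri T 1 X Y Z
  unfold Sub at h1 h2 ⊢
  rw [h1, h2, add_zero] at h
  exact le_antisymm h (lam_nonneg _ _)

lemma sub_compl : Sub Yᶜ Xᶜ ↔ Sub X Y := by
  unfold Sub
  have e : Yᶜ \ Xᶜ = X \ Y := by
    ext x; simp; tauto
  rw [e]

lemma sub_compl_left : Sub Xᶜ Y ↔ Sub Yᶜ X := by
  rw [← sub_compl, compl_compl]

lemma sub_compl_right : Sub X Yᶜ ↔ Sub Y Xᶜ := by
  rw [← sub_compl, compl_compl]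

lemma sub_compl_right_iff : Sub X Yᶜ ↔ lam 1 (X ∩ Y) = 0 := by
  unfold Sub
  rw [diff_compl]

lemma sub_compl_left_iff : Sub Xᶜ Y ↔ lam 1 (X ∪ Y)ᶜ = 0 := by
  unfold Sub
  rw [diff_eq, compl_union]

lemma sub_lam (T : Tool) (hX : MeasurableSet X) (hY : MeasurableSet Y) (h : Sub X Y) (k : G) :
    lam k (X \ Y) = 0 := (lam_zero_iff T k (hX.diff hY)).2 h

lemma sub_iff_lam (T : Tool) (hX : MeasurableSet X) (hY : MeasurableSet Y) (k : G) :
    Sub X Y ↔ lam k (X \ Y) = 0 := (lam_zero_iff T k (hX.diff hY)).symm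

lemma not_sub_iff (T : Tool) (hX : MeasurableSet X) (hY : MeasurableSet Y) (k : G) :
    ¬ Sub X Y ↔ 0 < lam k (X \ Y) := by
  rw [sub_iff_lam T hX hY k]
  constructor
  · intro h
    exact lt_of_le_of_ne (lam_nonneg _ _) (Ne.symm h)
  · intro h h2
    rw [h2] at h
    exact lt_irrefl _ h

lemma sub_mv (T : Tool) (hX : MeasurableSet X) (hY : MeasurableSet Y) (g : G) (h : Sub X Y) :
    Sub (mv g X) (mv g Y) := by
  show lam 1 (mv g (X \ Y)) = 0
  rw [lam_one_mv]
  exact sub_lam T hX hY h _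

lemma sub_mv_iff (T : Tool) (hX : MeasurableSet X) (hY : MeasurableSet Y) (g : G) :
    Sub (mv g X) (mv g Y) ↔ Sub X Y := by
  constructor
  · intro h
    have := sub_mv T (meas_mv g hX) (meas_mv g hY) g⁻¹ h
    rwa [mv_inv_mv, mv_inv_mv] at this
  · exact sub_mv T hX hY g

/-- Monotonicity of the visual measures modulo null sets. -/
lemma lam_le_of_sub (T : Tool) (hX : MeasurableSet X) (hY : MeasurableSet Y) (h : Sub X Y)
    (k : G) : lam k X ≤ lam k Y := by
  have h1 := lam_le_add_diff T k X Y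
  rw [sub_lam T hX hY h k, add_zero] at h1
  exact h1

/-- For nested sets the measure of the difference is the difference of the measures. -/
lemma lam_diff_of_sub (T : Tool) (hX : MeasurableSet X) (hY : MeasurableSet Y) (h : Sub X Y)
    (k : G) : lam k (Y \ X) = lam k Y - lam k X := by
  have h1 := lam_inter_add_diff T k Y hX
  have h2 := lam_inter_add_diff T k X hY
  rw [sub_lam T hX hY h k, add_zero] at h2
  rw [inter_comm, h2] at h1
  linarith

/-- If `X` and `X'` agree modulo null sets they have the same measures. -/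
lemma lam_congr (T : Tool) (hX : MeasurableSet X) (hY : MeasurableSet Y) (h : Sub X Y)
    (h' : Sub Y X) (k : G) : lam k X = lam k Y :=
  le_antisymm (lam_le_of_sub T hX hY h k) (lam_le_of_sub T hY hX h' k)

/-! ### The distance -/

lemma ds_nonneg (X Y : Set (OnePoint ℂ)) : 0 ≤ ds X Y := lam_nonneg _ _

lemma ds_comm (X Y : Set (OnePoint ℂ)) : ds X Y = ds Y X := lam_sd_comm 1 X Y

@[simp] lemma ds_self (X : Set (OnePoint ℂ)) : ds X X = 0 := by
  unfold ds
  rw [symmDiff_self]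
  exact lam_empty 1

lemma ds_tri (T : Tool) (X Y Z : Set (OnePoint ℂ)) : ds X Z ≤ ds X Y + ds Y Z :=
  lam_sd_tri T 1 X Y Z

lemma ds_compl (X Y : Set (OnePoint ℂ)) : ds Xᶜ Yᶜ = ds X Y := by
  unfold ds
  rw [sd_compl]

lemma ds_compl_left (X Y : Set (OnePoint ℂ)) : ds Xᶜ Y = ds X Yᶜ := by
  rw [← ds_compl, compl_compl]

lemma ds_zero_iff (T : Tool) (X Y : Set (OnePoint ℂ)) : ds X Y = 0 ↔ Sub X Y ∧ Sub Y X := by
  unfold ds Sub
  constructor
  · intro h
    exact ⟨le_antisymm ((lam_diff_le_sd T 1 X Y).trans h.le) (lam_nonneg _ _),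
      le_antisymm ((lam_diff_le_sd' T 1 X Y).trans h.le) (lam_nonneg _ _)⟩
  · rintro ⟨h1, h2⟩
    refine le_antisymm ((lam_sd_le T 1 X Y).trans ?_) (lam_nonneg _ _)
    rw [h1, h2, add_zero]

lemma ds_mv_le (T : Tool) (g : G) : ∃ c : ℝ, 1 ≤ c ∧ ∀ X Y, MeasurableSet X → MeasurableSet Y →
    ds (mv g X) (mv g Y) ≤ c * ds X Y := by
  obtain ⟨c, hc1, hc⟩ := lam_mv_le T g
  refine ⟨c, hc1, fun X Y hX hY => ?_⟩
  have h1 := hc (symmDiff X Y) (hX.symmDiff hY)
  rw [mv_symm] at h1
  exact h1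

/-- The visual measure of the symmetric difference and the distance. -/
lemma lam_sd_le_ds (T : Tool) {D : Set G} (hD : IsCompact D) : ∃ c : ℝ, 1 ≤ c ∧ ∀ d ∈ D,
    ∀ X, MeasurableSet X → lam d X ≤ c * lam 1 X ∧ lam 1 X ≤ c * lam d X := by
  obtain ⟨c, hc1, hc⟩ := T.har D hD
  obtain ⟨c', hc1', hc'⟩ := T.har D⁻¹ hD.inv
  refine ⟨max c c', hc1.trans (le_max_left _ _), fun d hd X hX => ⟨?_, ?_⟩⟩
  · have := hc 1 d hd X hX
    rw [one_mul] at this
    exact this.trans (mul_le_mul_of_nonneg_right (le_max_left _ _) (lam_nonneg _ _))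
  · have := hc' d d⁻¹ (Set.inv_mem_inv.2 hd) X hX
    rw [mul_inv_cancel] at this
    exact this.trans (mul_le_mul_of_nonneg_right (le_max_right _ _) (lam_nonneg _ _))

/-! ### Nested sets -/

/-- Two sets are nested modulo null sets. -/
def Nst (X Y : Set (OnePoint ℂ)) : Prop := Sub X Y ∨ Sub Y X ∨ Sub X Yᶜ ∨ Sub Xᶜ Y

lemma Nst.symm (h : Nst X Y) : Nst Y X := by
  rcases h with h | h | h | h
  · exact Or.inr (Or.inl h)
  · exact Or.inl h
  · exact Or.inr (Or.inr (Or.inl (sub_compl_right.1 h)))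
  · exact Or.inr (Or.inr (Or.inr (sub_compl_left.1 h)))

/-- Nested sets, whose intersection and co-intersection have positive measure and such that
the first is not contained in the second: the second is contained in the first. -/
lemma Nst.sub (T : Tool) (hX : MeasurableSet X) (hY : MeasurableSet Y) (h : Nst X Y) (k : G)
    (h1 : 0 < lam k (Y \ X)) (h2 : 0 < lam k (X ∩ Y)) (h3 : 0 < lam k (X ∪ Y)ᶜ) : Sub X Y := by
  rcases h with h | h | h | h
  · exact h
  · exact absurd h ((not_sub_iff T hY hX k).2 h1)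
  · exfalso
    have := (not_sub_iff T hX hY.compl k).2 (by rwa [diff_compl])
    exact this h
  · exfalso
    have := (not_sub_iff T hX.compl hY k).2 (by rwa [diff_eq, ← compl_union])
    exact this h

end Pool.Agent.H81.NS.B
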