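import Pool.Agent.H33.NS.Gap

/-!
Frames (problem MP_90715c_gt, NoSeparation).
-/

open Matrix Set Filter Topology MeasureTheory
open scoped Pointwise

namespace Pool.Agent.H81.NS.B

open Pool.Agent.H90.WC Pool.Agent.H81.TG

/-- The visual measure of a set depends continuously on the frame. -/
theorem lam_cont (T : Tool) {X : Set (OnePoint ℂ)} (hX : MeasurableSet X) :
    Continuous fun k => lam k X := by
  rw [continuous_iff_continuousAt]
  intro k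
  rw [ContinuousAt, Metric.tendsto_nhds]
  intro ε hε
  obtain ⟨V, hV, hVc⟩ := T.har1 (ε / 2) (by positivity)
  have h1 : Tendsto (fun l : G => k⁻¹ * l) (𝓝 k) (𝓝 1) := by
    have : Continuous fun l : G => k⁻¹ * l := continuous_const.mul continuous_id
    have h := this.tendsto k
    rwa [inv_mul_cancel] at h
  have h2 : Tendsto (fun l : G => l⁻¹ * k) (𝓝 k) (𝓝 1) := by
    have : Continuous fun l : G => l⁻¹ * k := continuous_inv.mul continuous_const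
    have h := this.tendsto k
    rwa [inv_mul_cancel] at h
  filter_upwards [h1 hV, h2 hV] with l hl1 hl2
  have e1 := hVc k _ hl1 X hX
  have e2 := hVc l _ hl2 X hX
  rw [mul_inv_cancel_left] at e1 e2
  have b1 := lam_le_one T k X
  have b2 := lam_le_one T l X
  have b3 := lam_nonneg k X
  have b4 := lam_nonneg l X
  rw [Real.dist_eq, abs_lt]
  constructor <;> nlinarith

lemma tf_eq (z : ℂ) {r : ℝ} (hr : 0 < r) : tf z r = fr z r hr := dif_pos hr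

lemma tf_00 (z : ℂ) {r : ℝ} (hr : 0 < r) : tf z r 0 0 = ((Real.sqrt r : ℝ) : ℂ) := by
  rw [tf_eq z hr, fr_00]

lemma tf_01 (z : ℂ) {r : ℝ} (hr : 0 < r) : tf z r 0 1 = z / ((Real.sqrt r : ℝ) : ℂ) := by
  rw [tf_eq z hr, fr_01]

lemma tf_10 (z : ℂ) {r : ℝ} (hr : 0 < r) : tf z r 1 0 = 0 := by
  rw [tf_eq z hr, fr_10]

lemma tf_11 (z : ℂ) {r : ℝ} (hr : 0 < r) : tf z r 1 1 = ((Real.sqrt r : ℝ) : ℂ)⁻¹ := by
  rw [tf_eq z hr, fr_11]

theorem tf_one : tf 0 1 = 1 := by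
  apply ext_G
  · rw [tf_00 0 one_pos]; simp
  · rw [tf_01 0 one_pos]; simp
  · rw [tf_10 0 one_pos]; simp
  · rw [tf_11 0 one_pos]; simp

lemma act_tf (z : ℂ) {r : ℝ} (hr : 0 < r) (s : ℂ) :
    act (tf z r) (s : OnePoint ℂ) = (((r : ℂ) * s + z : ℂ) : OnePoint ℂ) := by
  rw [tf_eq z hr]
  exact act_fr z r hr s

theorem tf_cont : ContinuousOn (fun p : ℂ × ℝ => tf p.1 p.2) {p | 0 < p.2} := by
  intro p hp
  have hp' : 0 < p.2 := hp
  have hs : Continuous fun p : ℂ × ℝ => ((Real.sqrt p.2 : ℝ) : ℂ) :=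
    Complex.continuous_ofReal.comp (Real.continuous_sqrt.comp continuous_snd)
  have hne : ((Real.sqrt p.2 : ℝ) : ℂ) ≠ 0 := by
    exact_mod_cast (Real.sqrt_pos.2 hp').ne'
  have hmem : ∀ᶠ q : ℂ × ℝ in 𝓝[{p | 0 < p.2}] p, 0 < q.2 := self_mem_nhdsWithin
  refine (tendsto_iff).2 fun i j => ?_
  fin_cases i <;> fin_cases j
  · show Tendsto (fun q : ℂ × ℝ => tf q.1 q.2 0 0) _ (𝓝 (tf p.1 p.2 0 0))
    rw [tf_00 _ hp']
    refine ((hs.tendsto p).mono_left nhdsWithin_le_nhds).congr' ?_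
    filter_upwards [hmem] with q hq
    rw [tf_00 _ hq]
  · show Tendsto (fun q : ℂ × ℝ => tf q.1 q.2 0 1) _ (𝓝 (tf p.1 p.2 0 1))
    rw [tf_01 _ hp']
    refine (((continuous_fst.tendsto p).div (hs.tendsto p) hne).mono_left
      nhdsWithin_le_nhds).congr' ?_
    filter_upwards [hmem] with q hq
    rw [tf_01 _ hq]
    rfl
  · show Tendsto (fun q : ℂ × ℝ => tf q.1 q.2 1 0) _ (𝓝 (tf p.1 p.2 1 0))
    rw [tf_10 _ hp']
    refine tendsto_const_nhds.congr' ?_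
    filter_upwards [hmem] with q hq
    rw [tf_10 _ hq]
  · show Tendsto (fun q : ℂ × ℝ => tf q.1 q.2 1 1) _ (𝓝 (tf p.1 p.2 1 1))
    rw [tf_11 _ hp']
    refine (((hs.tendsto p).inv₀ hne).mono_left nhdsWithin_le_nhds).congr' ?_
    filter_upwards [hmem] with q hq
    rw [tf_11 _ hq]

theorem tf_inv_mul (z z' : ℂ) {r r' : ℝ} (hr : 0 < r) (hr' : 0 < r') :
    (tf z r)⁻¹ * tf z' r' = tf ((z' - z) / r) (r' / r) := by
  have hrr : 0 < r' / r := div_pos hr' hr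
  have h1 : ((Real.sqrt r : ℝ) : ℂ) ≠ 0 := by exact_mod_cast (Real.sqrt_pos.2 hr).ne'
  have h2 : ((Real.sqrt r' : ℝ) : ℂ) ≠ 0 := by exact_mod_cast (Real.sqrt_pos.2 hr').ne'
  have h3 : ((Real.sqrt r : ℝ) : ℂ) ^ 2 = (r : ℂ) := by
    rw [← Complex.ofReal_pow, Real.sq_sqrt hr.le]
  have h4 : ((Real.sqrt (r' / r) : ℝ) : ℂ) =
      ((Real.sqrt r' : ℝ) : ℂ) / ((Real.sqrt r : ℝ) : ℂ) := by
    rw [Real.sqrt_div hr'.le, Complex.ofReal_div]
  have h5 : (r : ℂ) ≠ 0 := by exact_mod_cast hr.ne'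
  apply ext_G
  · rw [mul_00, inv_00, inv_01, tf_11 _ hr, tf_01 _ hr, tf_00 _ hr', tf_10 _ hr', tf_00 _ hrr, h4]
    field_simp
    ring
  · rw [mul_01, inv_00, inv_01, tf_11 _ hr, tf_01 _ hr, tf_01 _ hr', tf_11 _ hr', tf_01 _ hrr, h4,
      ← h3]
    field_simp
    ring
  · rw [mul_10, inv_10, inv_11, tf_10 _ hr, tf_00 _ hr, tf_00 _ hr', tf_10 _ hr', tf_10 _ hrr]
    ring
  · rw [mul_11, inv_10, inv_11, tf_10 _ hr, tf_00 _ hr, tf_01 _ hr', tf_11 _ hr', tf_11 _ hrr, h4]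
    field_simp
    ring

theorem tf_bdd {Q : Set G} (hQ : IsCompact Q) : ∃ C : ℝ, 0 < C ∧ ∀ (z z' : ℂ) (r r' : ℝ),
    0 < r → 0 < r' → (tf z r)⁻¹ * tf z' r' ∈ Q → ‖z' - z‖ ≤ C * r ∧ r' ≤ C * r := by
  obtain ⟨n, hn⟩ := subset_ball hQ
  refine ⟨(n : ℝ) ^ 2 + 1, by positivity, fun z z' r r' hr hr' h => ?_⟩
  rw [tf_inv_mul z z' hr hr'] at h
  have hrr : 0 < r' / r := div_pos hr' hr
  have hb := hn h
  have b1 := hb 0 0
  have b2 := hb 0 1
  rw [tf_00 _ hrr, Complex.norm_real, Real.norm_of_nonneg (Real.sqrt_nonneg _)] at b1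
  rw [tf_01 _ hrr, norm_div, Complex.norm_real, Real.norm_of_nonneg (Real.sqrt_nonneg _),
    div_le_iff₀ (Real.sqrt_pos.2 hrr), norm_div, Complex.norm_real, Real.norm_of_nonneg hr.le,
    div_le_iff₀ hr] at b2
  have h0 := Real.sqrt_nonneg (r' / r)
  have b3 : r' / r ≤ (n : ℝ) ^ 2 := by
    rw [← Real.sq_sqrt hrr.le]
    gcongr
  rw [div_le_iff₀ hr] at b3
  constructor
  · calc ‖z' - z‖ ≤ n * Real.sqrt (r' / r) * r := b2
      _ ≤ n * n * r := by gcongr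
      _ ≤ ((n : ℝ) ^ 2 + 1) * r := by nlinarith
  · nlinarith

theorem tf_cocompact {ι : Type*} {F : Filter ι} (z : ι → ℂ) (r : ι → ℝ) (hr : ∀ i, 0 < r i)
    (h0 : Tendsto r F (𝓝 0)) : Tendsto (fun i => tf (z i) (r i)) F (cocompact G) := by
  rw [tendsto_def]
  intro S hS
  obtain ⟨C, hC, hCS⟩ := mem_cocompact.1 hS
  obtain ⟨n, hn⟩ := subset_ball hC
  have h1 : ∀ᶠ i in F, r i < (((n : ℝ) + 1) ^ 2)⁻¹ := h0.eventually (gt_mem_nhds (by positivity))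
  filter_upwards [h1] with i hi
  apply hCS
  intro hmem
  have b := hn hmem 1 1
  rw [tf_11 _ (hr i), norm_inv, Complex.norm_real, Real.norm_of_nonneg (Real.sqrt_nonneg _)] at b
  have hs : Real.sqrt (r i) < ((n : ℝ) + 1)⁻¹ := by
    rw [Real.sqrt_lt' (by positivity), inv_pow]
    exact hi
  have hs' : (n : ℝ) + 1 < (Real.sqrt (r i))⁻¹ := by
    rw [lt_inv_comm₀ (by positivity) (Real.sqrt_pos.2 (hr i))]
    exact hs
  linarith

end Pool.Agent.H81.NS.B
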