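import Pool.Agent.H33.NS.Bas

/-!
Gaps have bounded thick part (problem MP_90715c_gt, NoSeparation, section 7).
-/

open Matrix Set Filter Topology MeasureTheory
open scoped Pointwise

namespace Pool.Agent.H81.NS

open Pool.Agent.H90.WC Pool.Agent.H81.TG B

variable {Γ : Subgroup G} {U : Set (OnePoint ℂ)}

/-- The matrices with entries of absolute value at most `n`. -/
def ball (n : ℕ) : Set G := {g | ∀ i j, ‖g i j‖ ≤ n}

lemma isCompact_ball (n : ℕ) : IsCompact (ball n) := by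
  have h1 : IsCompact (Set.pi univ fun _ : Fin 2 => Set.pi univ fun _ : Fin 2 =>
      Metric.closedBall (0 : ℂ) n) :=
    isCompact_univ_pi fun _ => isCompact_univ_pi fun _ => isCompact_closedBall 0 (n : ℝ)
  have h2 : IsCompact ((fun g : G => (g : Matrix (Fin 2) (Fin 2) ℂ)) ⁻¹'
      (Set.pi univ fun _ : Fin 2 => Set.pi univ fun _ : Fin 2 =>
      Metric.closedBall (0 : ℂ) n)) := (Matrix.SpecialLinearGroup.isClosedEmbedding_val
    (n := Fin 2) (R := ℂ)).isCompact_preimage h1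
  have e : ball n = (fun g : G => (g : Matrix (Fin 2) (Fin 2) ℂ)) ⁻¹'
      (Set.pi univ fun _ : Fin 2 => Set.pi univ fun _ : Fin 2 =>
      Metric.closedBall (0 : ℂ) n) := by
    ext g
    constructor
    · intro h i _ j _
      rw [mem_closedBall_zero_iff]
      exact h i j
    · intro h i j
      have := h i (mem_univ i) j (mem_univ j)
      rw [mem_closedBall_zero_iff] at this
      exact this
  rw [e]
  exact h2

lemma ball_mono {m n : ℕ} (h : m ≤ n) : ball m ⊆ ball n := fun _ hg i j =>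
  (hg i j).trans (Nat.cast_le.2 h)

lemma subset_ball {C : Set G} (hC : IsCompact C) : ∃ n, C ⊆ ball n := by
  have h : ∀ i j : Fin 2, ∃ n : ℕ, ∀ g ∈ C, ‖g i j‖ ≤ n := by
    intro i j
    obtain ⟨b, hb⟩ := (hC.image (continuous_entry i j).norm).bddAbove
    obtain ⟨n, hn⟩ := exists_nat_ge b
    exact ⟨n, fun g hg => (hb ⟨g, hg, rfl⟩).trans hn⟩
  choose n hn using h
  refine ⟨∑ i, ∑ j, n i j, fun g hg i j => (hn i j g hg).trans (Nat.cast_le.2 ?_)⟩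
  exact (Finset.single_le_sum (f := fun j => n i j) (fun _ _ => Nat.zero_le _)
    (Finset.mem_univ j)).trans (Finset.single_le_sum (f := fun i => ∑ j, n i j)
    (fun _ _ => Nat.zero_le _) (Finset.mem_univ i))

/-- There is no element of `M` strictly between `X` and `Y`. -/
def NoBtw (M : Set (Set (OnePoint ℂ))) (X Y : Set (OnePoint ℂ)) : Prop :=
  ∀ Z ∈ M, Sub X Z → Sub Z Y → Sub Z X ∨ Sub Y Z

lemma nobtw_mv (T : Tool) {M : Set (Set (OnePoint ℂ))} (hM : MinF Γ U M)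
    {X Y : Set (OnePoint ℂ)} (hX : X ∈ M) (hY : Y ∈ M) (h : NoBtw M X Y) {g : G} (hg : g ∈ Γ) :
    NoBtw M (mv g X) (mv g Y) := by
  intro Z hZ h1 h2
  have mX := (hM.leaf X hX).meas
  have mY := (hM.leaf Y hY).meas
  have mZ := (hM.leaf Z hZ).meas
  have e1 := sub_mv T (meas_mv g mX) mZ g⁻¹ h1
  have e2 := sub_mv T mZ (meas_mv g mY) g⁻¹ h2
  rw [mv_inv_mv] at e1 e2
  rcases h _ (hM.inv Z hZ _ (Γ.inv_mem hg)) e1 e2 with h3 | h3
  · left
    have := sub_mv T (meas_mv g⁻¹ mZ) mX g h3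
    rwa [mv_mv_inv] at this
  · right
    have := sub_mv T mY (meas_mv g⁻¹ mZ) g h3
    rwa [mv_mv_inv] at this

/-- Two gaps with big parts whose lower ends are close have the same lower end. -/
theorem gap_close (T : Tool) (hN : ∀ X Y, Lf Γ U X → Lf Γ U Y → Nst X Y)
    {M : Set (Set (OnePoint ℂ))} (hM : MinF Γ U M) {X Y X' : Set (OnePoint ℂ)} (hX : X ∈ M)
    (hY : Y ∈ M) (hX' : X' ∈ M) (hXY : Sub X Y) (hg : NoBtw M X Y) {c : ℝ}
    (h2 : c ≤ lam 1 (Y \ X)) (h3 : c ≤ lam 1 Yᶜ) (hd : ds X X' < c)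
    (hs : Sub X X') : Sub X' X := by
  have mX := (hM.leaf X hX).meas
  have mY := (hM.leaf Y hY).meas
  have mX' := (hM.leaf X' hX').meas
  have d1 : lam 1 (X' \ X) < c := (lam_diff_le_sd' T 1 X X').trans_lt hd
  have p1 : 0 < lam 1 (Y \ X') := by
    have := lam_diff_tri T 1 Y X' X
    linarith
  have p2 : 0 < lam 1 (X' ∩ Y) := by
    have e : lam 1 X ≤ lam 1 (X' ∩ Y) + lam 1 (X \ X') + lam 1 (X \ Y) := by
      refine (lam_mono T 1 ?_).trans ((lam_union_le T 1 (X' ∩ Y ∪ X \ X') (X \ Y)).trans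
        (add_le_add_left (lam_union_le T 1 _ _) _))
      intro x hx
      by_cases h : x ∈ Y
      · by_cases h' : x ∈ X'
        · exact Or.inl (Or.inl ⟨h', h⟩)
        · exact Or.inl (Or.inr ⟨hx, h'⟩)
      · exact Or.inr ⟨hx, h⟩
    have e1 : lam 1 (X \ X') = 0 := hs
    have e2 : lam 1 (X \ Y) = 0 := hXY
    have e3 : 0 < lam 1 X := (hM.leaf X hX).pos
    linarith
  have p3 : 0 < lam 1 (X' ∪ Y)ᶜ := by
    have e : lam 1 Yᶜ ≤ lam 1 (X' ∪ Y)ᶜ + lam 1 (X' \ Y) := by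
      refine (lam_mono T 1 ?_).trans (lam_union_le T 1 _ _)
      intro x hx
      by_cases h : x ∈ X'
      · exact Or.inr ⟨h, hx⟩
      · exact Or.inl fun h' => h'.elim h hx
    have e1 := lam_diff_tri T 1 X' X Y
    have e2 : lam 1 (X \ Y) = 0 := hXY
    linarith
  have s := (hN X' Y (hM.leaf _ hX') (hM.leaf _ hY)).sub T mX' mY 1 p1 p2 p3
  rcases hg X' hX' hs s with h | h
  · exact h
  · exact absurd h ((not_sub_iff T mY mX' 1).2 p1)

/-- The step `(*)`. -/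
theorem gap_star (T : Tool) (hN : ∀ X Y, Lf Γ U X → Lf Γ U Y → Nst X Y)
    (hC : ∀ c > (0 : ℝ), ∀ X : ℕ → Set (OnePoint ℂ), (∀ n, Lf Γ U (X n)) →
      (∀ n, c ≤ lam 1 (X n)) → (∀ n, c ≤ lam 1 (X n)ᶜ) →
      ∃ Y, Lf Γ U Y ∧ ∃ φ : ℕ → ℕ, StrictMono φ ∧
        Tendsto (fun n => ds (X (φ n)) Y) atTop (𝓝 0))
    {M : Set (Set (OnePoint ℂ))} (hM : MinF Γ U M) {D : Set G} (hD : IsCompact D)
    {δ : ℝ} (hδ : 0 < δ) {X Y : ℕ → Set (OnePoint ℂ)} (hX : ∀ n, X n ∈ M) (hY : ∀ n, Y n ∈ M)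
    (hXY : ∀ n, Sub (X n) (Y n)) (hg : ∀ n, NoBtw M (X n) (Y n)) {d : ℕ → G}
    (hd : ∀ n, d n ∈ D) (h1 : ∀ n, δ ≤ lam (d n) (X n)) (h2 : ∀ n, δ ≤ lam (d n) (Y n \ X n))
    (h3 : ∀ n, δ ≤ lam (d n) (Y n)ᶜ) :
    ∃ φ : ℕ → ℕ, StrictMono φ ∧ ∀ i j, Sub (X (φ i)) (X (φ j)) := by
  obtain ⟨c, hc1, hc⟩ := lam_sd_le_ds T hD
  have hc0 : 0 < c := by linarith
  have mX : ∀ n, MeasurableSet (X n) := fun n => (hM.leaf _ (hX n)).meas
  have mY : ∀ n, MeasurableSet (Y n) := fun n => (hM.leaf _ (hY n)).meas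
  have key : ∀ n, ∀ Z, MeasurableSet Z → δ ≤ lam (d n) Z → δ / c ≤ lam 1 Z := by
    intro n Z hZ h
    rw [div_le_iff₀ hc0, mul_comm]
    exact h.trans (hc _ (hd n) Z hZ).1
  have b1 : ∀ n, δ / c ≤ lam 1 (X n) := fun n => key n _ (mX n) (h1 n)
  have b2 : ∀ n, δ / c ≤ lam 1 (Y n \ X n) := fun n => key n _ ((mY n).diff (mX n)) (h2 n)
  have b3 : ∀ n, δ / c ≤ lam 1 (Y n)ᶜ := fun n => key n _ (mY n).compl (h3 n)
  have b4 : ∀ n, δ / c ≤ lam 1 (X n)ᶜ := fun n => (b3 n).trans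
    (lam_le_of_sub T (mY n).compl (mX n).compl (sub_compl.2 (hXY n)) 1)
  have hp : 0 < δ / c := by positivity
  obtain ⟨N, hNf, φ, hφ, hφl⟩ := hC (δ / c) hp X (fun n => hM.leaf _ (hX n)) b1 b4
  obtain ⟨n₀, hn₀⟩ := eventually_atTop.1 (hφl.eventually (gt_mem_nhds (half_pos hp)))
  have hdd : ∀ i j, n₀ ≤ i → n₀ ≤ j → ds (X (φ i)) (X (φ j)) < δ / c := by
    intro i j hi hj
    have e1 := hn₀ i hi
    have e2 := hn₀ j hj
    have e3 := ds_tri T (X (φ i)) N (X (φ j))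
    rw [ds_comm N] at e3
    linarith
  have main : ∀ i j, n₀ ≤ i → n₀ ≤ j → Sub (X (φ i)) (X (φ j)) := by
    intro i j hi hj
    by_contra hcon
    have hdij := hdd i j hi hj
    have mi := mX (φ i)
    have mj := mX (φ j)
    -- comparable
    have p1 : 0 < lam 1 (X (φ j) ∩ X (φ i)) := by
      have e1 := lam_inter_add_diff T 1 (X (φ j)) mi
      have e2 := lam_diff_le_sd' T 1 (X (φ i)) (X (φ j))
      have e3 := b1 (φ j)
      unfold ds at hdij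
      linarith
    have p2 : 0 < lam 1 (X (φ j) ∪ X (φ i))ᶜ := by
      have e : lam 1 (X (φ j))ᶜ ≤ lam 1 (X (φ j) ∪ X (φ i))ᶜ + lam 1 (X (φ i) \ X (φ j)) := by
        refine (lam_mono T 1 ?_).trans (lam_union_le T 1 _ _)
        intro x hx
        by_cases h : x ∈ X (φ i)
        · exact Or.inr ⟨h, hx⟩
        · exact Or.inl fun h' => h'.elim hx h
      have e2 := lam_diff_le_sd T 1 (X (φ i)) (X (φ j))
      have e3 := b4 (φ j)
      unfold ds at hdij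
      linarith
    have p3 : 0 < lam 1 (X (φ i) \ X (φ j)) := (not_sub_iff T mi mj 1).1 hcon
    have s := (hN (X (φ j)) (X (φ i)) (hM.leaf _ (hX _)) (hM.leaf _ (hX _))).sub T mj mi 1
      p3 p1 p2
    exact hcon (gap_close T hN hM (hX _) (hY _) (hX _) (hXY _) (hg _) (b2 _) (b3 _)
      (hdd j i hj hi) s)
  exact ⟨fun n => φ (n₀ + n), fun a b hab => hφ (Nat.add_lt_add_left hab n₀),
    fun i j => main _ _ (Nat.le_add_right _ _) (Nat.le_add_right _ _)⟩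

/-- Gaps have bounded thick part. -/
theorem gaps (T : Tool)
    (hcoc : ∃ C : Set G, IsCompact C ∧ ∀ g : G, ∃ γ ∈ Γ, γ * g ∈ C)
    (hN : ∀ X Y, Lf Γ U X → Lf Γ U Y → Nst X Y)
    (hStab : ∀ s ∈ Γ, ∀ L, Lf Γ U L → ds (mv s L) L = 0 → s = 1 ∨ s = -1)
    (hC : ∀ c > (0 : ℝ), ∀ X : ℕ → Set (OnePoint ℂ), (∀ n, Lf Γ U (X n)) →
      (∀ n, c ≤ lam 1 (X n)) → (∀ n, c ≤ lam 1 (X n)ᶜ) →
      ∃ Y, Lf Γ U Y ∧ ∃ φ : ℕ → ℕ, StrictMono φ ∧
        Tendsto (fun n => ds (X (φ n)) Y) atTop (𝓝 0))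
    {M : Set (Set (OnePoint ℂ))} (hM : MinF Γ U M) {δ : ℝ} (hδ : 0 < δ) :
    ∃ Q : Set G, IsCompact Q ∧ ∀ X ∈ M, ∀ Y ∈ M, Sub X Y →
      (∀ Z ∈ M, Sub X Z → Sub Z Y → Sub Z X ∨ Sub Y Z) → ∀ k k',
      δ ≤ lam k X → δ ≤ lam k (Y \ X) → δ ≤ lam k Yᶜ →
      δ ≤ lam k' X → δ ≤ lam k' (Y \ X) → δ ≤ lam k' Yᶜ → k⁻¹ * k' ∈ Q := by
  by_contra hcon
  push Not at hcon
  have hcon' : ∀ n : ℕ, ∃ X ∈ M, ∃ Y ∈ M, Sub X Y ∧ NoBtw M X Y ∧ ∃ k k',
      δ ≤ lam k X ∧ δ ≤ lam k (Y \ X) ∧ δ ≤ lam k Yᶜ ∧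
      δ ≤ lam k' X ∧ δ ≤ lam k' (Y \ X) ∧ δ ≤ lam k' Yᶜ ∧ k⁻¹ * k' ∉ ball n := by
    intro n
    obtain ⟨X, hX, Y, hY, hXY, hg, k, k', h1, h2, h3, h4, h5, h6, h7⟩ :=
      hcon (ball n) (isCompact_ball n)
    exact ⟨X, hX, Y, hY, hXY, hg, k, k', h1, h2, h3, h4, h5, h6, h7⟩
  choose X hX Y hY hXY hg k k' h1 h2 h3 h4 h5 h6 h7 using hcon'
  obtain ⟨D, hD, hcov⟩ := hcoc
  choose γ hγ hγD using fun j => hcov (k j)
  choose σ hσ hσD using fun j => hcov (γ j * k' j)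
  -- first translation
  obtain ⟨φ, hφ, hφe⟩ := gap_star T hN hC hM hD hδ (X := fun n => mv (γ n) (X n))
    (Y := fun n => mv (γ n) (Y n)) (fun n => hM.inv _ (hX n) _ (hγ n))
    (fun n => hM.inv _ (hY n) _ (hγ n))
    (fun n => sub_mv T (hM.leaf _ (hX n)).meas (hM.leaf _ (hY n)).meas _ (hXY n))
    (fun n => nobtw_mv T hM (hX n) (hY n) (hg n) (hγ n)) hγD
    (fun n => by rw [lam_mv]; exact h1 n)
    (fun n => by rw [← mv_diff, lam_mv]; exact h2 n)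
    (fun n => by rw [← mv_compl, lam_mv]; exact h3 n)
  have hsγ : ∀ n, σ n * γ n ∈ Γ := fun n => Γ.mul_mem (hσ n) (hγ n)
  obtain ⟨ψ, hψ, hψe⟩ := gap_star T hN hC hM hD hδ
    (X := fun n => mv (σ (φ n) * γ (φ n)) (X (φ n)))
    (Y := fun n => mv (σ (φ n) * γ (φ n)) (Y (φ n)))
    (d := fun n => (σ (φ n) * γ (φ n)) * k' (φ n))
    (fun n => hM.inv _ (hX _) _ (hsγ _))
    (fun n => hM.inv _ (hY _) _ (hsγ _))
    (fun n => sub_mv T (hM.leaf _ (hX _)).meas (hM.leaf _ (hY _)).meas _ (hXY _))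
    (fun n => nobtw_mv T hM (hX _) (hY _) (hg _) (hsγ _))
    (fun n => by rw [mul_assoc]; exact hσD _)
    (fun n => by rw [lam_mv]; exact h4 _)
    (fun n => by rw [← mv_diff, lam_mv]; exact h5 _)
    (fun n => by rw [← mv_compl, lam_mv]; exact h6 _)
  set θ : ℕ → ℕ := fun n => φ (ψ n) with hθ
  have hθm : StrictMono θ := hφ.comp hψ
  -- the stabiliser
  set L : Set (OnePoint ℂ) := mv (γ (θ 0)) (X (θ 0)) with hL
  have hLM : L ∈ M := hM.inv _ (hX _) _ (hγ _)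
  have mL := (hM.leaf _ hLM).meas
  have hst : ∀ j, (σ (θ 0))⁻¹ * σ (θ j) = 1 ∨ (σ (θ 0))⁻¹ * σ (θ j) = -1 := by
    intro j
    refine hStab _ (Γ.mul_mem (Γ.inv_mem (hσ _)) (hσ _)) L (hM.leaf _ hLM) ?_
    set L' : Set (OnePoint ℂ) := mv (γ (θ j)) (X (θ j)) with hL'
    have hLM' : L' ∈ M := hM.inv _ (hX _) _ (hγ _)
    have mL' := (hM.leaf _ hLM').meas
    have a1 : Sub L L' := hφe (ψ 0) (ψ j)
    have a2 : Sub L' L := hφe (ψ j) (ψ 0)
    have a3 : Sub (mv (σ (θ 0)) L) (mv (σ (θ j)) L') := by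
      have := hψe 0 j
      rw [mv_mul, mv_mul] at this
      exact this
    have a4 : Sub (mv (σ (θ j)) L') (mv (σ (θ 0)) L) := by
      have := hψe j 0
      rw [mv_mul, mv_mul] at this
      exact this
    have a5 : Sub (mv (σ (θ j)) L) (mv (σ (θ 0)) L) :=
      sub_trans T (sub_mv T mL mL' _ a1) a4
    have a6 : Sub (mv (σ (θ 0)) L) (mv (σ (θ j)) L) :=
      sub_trans T a3 (sub_mv T mL' mL _ a2)
    rw [ds_zero_iff T]
    constructor
    · have := sub_mv T (meas_mv _ mL) (meas_mv _ mL) (σ (θ 0))⁻¹ a5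
      rwa [mv_inv_mv, ← mv_mul] at this
    · have := sub_mv T (meas_mv _ mL) (meas_mv _ mL) (σ (θ 0))⁻¹ a6
      rwa [mv_inv_mv, ← mv_mul] at this
  -- the compact set
  have hfin : IsCompact ({(σ (θ 0))⁻¹, -(σ (θ 0))⁻¹} : Set G) :=
    ((finite_singleton _).insert _).isCompact
  have hQ : IsCompact (D⁻¹ * {(σ (θ 0))⁻¹, -(σ (θ 0))⁻¹} * D) := (hD.inv.mul hfin).mul hD
  obtain ⟨n, hn⟩ := subset_ball hQ
  have hin : (k (θ n))⁻¹ * k' (θ n) ∈ D⁻¹ * {(σ (θ 0))⁻¹, -(σ (θ 0))⁻¹} * D := by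
    have hs : (σ (θ n))⁻¹ ∈ ({(σ (θ 0))⁻¹, -(σ (θ 0))⁻¹} : Set G) := by
      rcases hst n with h | h
      · left
        rw [_root_.inv_inj]
        exact (inv_mul_eq_one.1 h).symm
      · right
        rw [mem_singleton_iff]
        have e : σ (θ n) = -σ (θ 0) := by
          rw [inv_mul_eq_iff_eq_mul] at h
          rw [h, mul_neg, mul_one]
        rw [e, inv_eq_iff_mul_eq_one, neg_mul_neg, mul_inv_cancel]
    have e : (k (θ n))⁻¹ * k' (θ n) = (γ (θ n) * k (θ n))⁻¹ * (σ (θ n))⁻¹ *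
        (σ (θ n) * (γ (θ n) * k' (θ n))) := by group
    rw [e]
    exact Set.mul_mem_mul (Set.mul_mem_mul (Set.inv_mem_inv.2 (hγD _)) hs) (hσD _)
  exact h7 (θ n) (ball_mono (hθm.id_le n) (hn hin))

end Pool.Agent.H81.NS
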