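import Pool.Agent.H33.NS.Bas

/-!
No middle leaf (problem MP_90715c_gt, NoSeparation, section 6).
-/

open Matrix Set Filter Topology MeasureTheory

namespace Pool.Agent.H81.NS

open Pool.Agent.H90.WC Pool.Agent.H81.TG B

variable {Γ : Subgroup G} {U : Set (OnePoint ℂ)}

/-- A set which is close to a set strictly between `A` and `L`, and nested with `A` and `L`, lies
between `A` and `L`. -/
theorem md_between (T : Tool) {A L X P : Set (OnePoint ℂ)} (mA : MeasurableSet A)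
    (mL : MeasurableSet L) (mX : MeasurableSet X) (mP : MeasurableSet P)
    (nA : Nst A P) (nL : Nst P L) (hAX : Sub A X) (hXL : Sub X L) (k : G) {δ : ℝ}
    (h1 : δ ≤ lam k A) (h2 : δ ≤ lam k (X \ A)) (h3 : δ ≤ lam k (L \ X)) (h4 : δ ≤ lam k Lᶜ)
    (hd : lam k (symmDiff P X) < δ) : Sub A P ∧ Sub P L ∧ ¬ Sub P A := by
  have dPX := lam_diff_le_sd T k P X
  have dXP := lam_diff_le_sd' T k P X
  have zAX := sub_lam T mA mX hAX k
  have zXL := sub_lam T mX mL hXL k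
  have hAL := sub_trans T hAX hXL
  have zAL := sub_lam T mA mL hAL k
  -- the four measures
  have pPA : 0 < lam k (P \ A) := by
    have := lam_diff_tri T k X P A
    linarith
  have pLP : 0 < lam k (L \ P) := by
    have := lam_diff_tri T k L P X
    linarith
  have sAP : lam k (A \ P) < δ := by
    have := lam_diff_tri T k A X P
    linarith
  have sPL : lam k (P \ L) < δ := by
    have := lam_diff_tri T k P X L
    linarith
  have pAP : 0 < lam k (A ∩ P) := by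
    have := lam_inter_add_diff T k A mP
    linarith
  have pPL : 0 < lam k (P ∩ L) := by
    have e : lam k (A ∩ P) ≤ lam k (P ∩ L) + lam k (A \ L) := by
      refine (lam_mono T k ?_).trans (lam_union_le T k _ _)
      intro x hx
      by_cases h : x ∈ L
      · exact Or.inl ⟨hx.2, h⟩
      · exact Or.inr ⟨hx.1, h⟩
    linarith
  have cPL : 0 < lam k (P ∪ L)ᶜ := by
    have e : lam k Lᶜ ≤ lam k (P ∪ L)ᶜ + lam k (P \ L) := by
      refine (lam_mono T k ?_).trans (lam_union_le T k _ _)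
      intro x hx
      by_cases h : x ∈ P
      · exact Or.inr ⟨h, hx⟩
      · exact Or.inl fun h' => h'.elim h hx
    linarith
  have cAP : 0 < lam k (A ∪ P)ᶜ := by
    have e : lam k (P ∪ L)ᶜ ≤ lam k (A ∪ P)ᶜ + lam k (A \ L) := by
      refine (lam_mono T k ?_).trans (lam_union_le T k _ _)
      intro x hx
      by_cases h : x ∈ A
      · exact Or.inr ⟨h, fun h' => hx (Or.inr h')⟩
      · exact Or.inl fun h' => h'.elim h fun h'' => hx (Or.inl h'')
    linarith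
  exact ⟨nA.sub T mA mP k pPA pAP cAP, nL.sub T mP mL k pLP pPL cPL,
    (not_sub_iff T mP mA k).2 pPA⟩

/-- No middle leaf. -/
theorem no_middle (T : Tool)
    (hcoc : ∃ C : Set G, IsCompact C ∧ ∀ g : G, ∃ γ ∈ Γ, γ * g ∈ C)
    (hN : ∀ X Y, Lf Γ U X → Lf Γ U Y → Nst X Y)
    (hS : ∀ A L, Lf Γ U A → Lf Γ U L → ∀ s ∈ Γ, Sub A L → Sub A (mv s A) → ¬ Sub (mv s A) A →
      ¬ Sub (mv s L) L)
    (hC : ∀ c > (0 : ℝ), ∀ X : ℕ → Set (OnePoint ℂ), (∀ n, Lf Γ U (X n)) →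
      (∀ n, c ≤ lam 1 (X n)) → (∀ n, c ≤ lam 1 (X n)ᶜ) →
      ∃ Y, Lf Γ U Y ∧ ∃ φ : ℕ → ℕ, StrictMono φ ∧
        Tendsto (fun n => ds (X (φ n)) Y) atTop (𝓝 0))
    {M : Set (Set (OnePoint ℂ))} (hM : MinF Γ U M)
    {L : Set (OnePoint ℂ)} (hL : L ∈ M) {A : ℕ → Set (OnePoint ℂ)} (hA : ∀ n, A n ∈ M)
    (hAL : ∀ n, Sub (A n) L) (hlim : Tendsto (fun n => lam 1 (L \ A n)) atTop (𝓝 0))
    {δ : ℝ} (hδ : 0 < δ) :
    ∃ N, ∀ n ≥ N, ∀ k, ∀ X ∈ M, Sub (A n) X → Sub X L → δ ≤ lam k (A n) →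
      δ ≤ lam k (X \ A n) → δ ≤ lam k (L \ X) → δ ≤ lam k Lᶜ → False := by
  by_contra hcon
  push Not at hcon
  choose n hn k X hXM hAX hXL h1 h2 h3 h4 _ using hcon
  have hLf := fun Z (hZ : Z ∈ M) => hM.leaf Z hZ
  obtain ⟨D, hD, hcov⟩ := hcoc
  choose γ hγ hγD using fun j => hcov (k j)
  obtain ⟨c, hc1, hc⟩ := lam_sd_le_ds T hD
  have hc0 : 0 < c := by linarith
  set Y : ℕ → Set (OnePoint ℂ) := fun j => mv (γ j) (X j) with hY
  have hYM : ∀ j, Y j ∈ M := fun j => hM.inv _ (hXM j) _ (hγ j)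
  have mX : ∀ j, MeasurableSet (X j) := fun j => (hLf _ (hXM j)).meas
  have mA : ∀ j, MeasurableSet (A j) := fun j => (hLf _ (hA j)).meas
  have mL : MeasurableSet L := (hLf _ hL).meas
  have mY : ∀ j, MeasurableSet (Y j) := fun j => (hLf _ (hYM j)).meas
  -- the bounds for the `Y j`
  have b1 : ∀ j, δ / c ≤ lam 1 (Y j) := by
    intro j
    have e1 := (hc _ (hγD j) (Y j) (mY j)).1
    rw [hY] at e1
    simp only at e1
    rw [lam_mv] at e1
    have e2 := lam_le_of_sub T (mA (n j)) (mX j) (hAX j) (k j)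
    rw [div_le_iff₀ hc0]
    have e3 := h1 j
    have e4 : c * lam 1 (mv (γ j) (X j)) = lam 1 (Y j) * c := by rw [mul_comm]
    linarith
  have b2 : ∀ j, δ / c ≤ lam 1 (Y j)ᶜ := by
    intro j
    have e1 := (hc _ (hγD j) (Y j)ᶜ (mY j).compl).1
    have e5 : (Y j)ᶜ = mv (γ j) (X j)ᶜ := rfl
    rw [e5, lam_mv, ← e5] at e1
    have e2 := lam_le_of_sub T mL.compl (mX j).compl (sub_compl.2 (hXL j)) (k j)
    rw [div_le_iff₀ hc0]
    have e3 := h4 j
    rw [mul_comm] at e1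
    linarith
  obtain ⟨N, hNf, φ, hφ, hφl⟩ := hC (δ / c) (by positivity) Y (fun j => hLf _ (hYM j)) b1 b2
  have hNM : N ∈ M := by
    refine hM.closed N hNf.meas hNf.pos hNf.cpos fun ε hε => ?_
    obtain ⟨j, hj⟩ := (hφl.eventually (gt_mem_nhds hε)).exists
    exact ⟨Y (φ j), hYM _, by rw [ds_comm]; exact hj⟩
  have hε : 0 < δ / (8 * c) := by positivity
  obtain ⟨g₀, hg₀, hg⟩ := hM.dense L hL N hNM _ hε
  obtain ⟨c', hc1', hc'⟩ := lam_mv_le T g₀
  have hc0' : 0 < c' := by linarith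
  -- the choice of `j`
  have hnφ : Tendsto (fun j => n (φ j)) atTop atTop :=
    tendsto_atTop_mono (fun j => (hφ.id_le j).trans (hn (φ j))) tendsto_id
  obtain ⟨j, hj1, hj2⟩ := ((hφl.eventually (gt_mem_nhds hε)).and
    ((hlim.comp hnφ).eventually (gt_mem_nhds (show 0 < δ / (4 * c * c') by positivity)))).exists
  simp only [Function.comp_apply] at hj2
  set i := φ j with hi
  set a := A (n i) with ha
  have ma : MeasurableSet a := mA _
  set g : G := (γ i)⁻¹ * g₀ with hgdef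
  have hgΓ : g ∈ Γ := Γ.mul_mem (Γ.inv_mem (hγ i)) hg₀
  have eg : ∀ Z, mv (γ i) (mv g Z) = mv g₀ Z := fun Z => by
    rw [← mv_mul, hgdef, mul_inv_cancel_left]
  have ha' : a ∈ M := hA _
  have hgL : mv g L ∈ M := hM.inv _ hL _ hgΓ
  have hga : mv g a ∈ M := hM.inv _ ha' _ hgΓ
  -- the difference of the translates of `L` and `a`
  have dLa : lam (k i) (mv g L \ mv g a) ≤ δ / 4 := by
    have e1 : lam (k i) (mv g L \ mv g a) = lam (γ i * k i) (mv g₀ (L \ a)) := by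
      rw [← lam_mv (γ i) (k i), ← mv_diff, eg]
    rw [e1]
    have e2 := (hc _ (hγD i) _ (meas_mv g₀ (mL.diff ma))).1
    have e3 := hc' _ (mL.diff ma)
    calc lam (γ i * k i) (mv g₀ (L \ a)) ≤ c * lam 1 (mv g₀ (L \ a)) := e2
      _ ≤ c * (c' * lam 1 (L \ a)) := by gcongr
      _ ≤ c * (c' * (δ / (4 * c * c'))) := by gcongr
      _ = δ / 4 := by field_simp
  have dLa' : lam (k i) (mv g a \ mv g L) = 0 := by
    have e1 : Sub (mv g a) (mv g L) := sub_mv T ma mL g (hAL _)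
    exact sub_lam T (meas_mv g ma) (meas_mv g mL) e1 _
  have sdLa : lam (k i) (symmDiff (mv g a) (mv g L)) ≤ δ / 4 := by
    have := lam_sd_le T (k i) (mv g a) (mv g L)
    linarith
  rcases hg with hg | hg
  · -- first case
    have d1 : lam (k i) (symmDiff (mv g L) (X i)) ≤ δ / 4 := by
      have e1 : lam (k i) (symmDiff (mv g L) (X i)) =
          lam (γ i * k i) (symmDiff (mv g₀ L) (Y i)) := by
        rw [← lam_mv (γ i) (k i), mv_symm, eg]
      rw [e1]
      have e2 := (hc _ (hγD i) _ ((meas_mv g₀ mL).symmDiff (mY i))).1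
      have e3 := ds_tri T (mv g₀ L) N (Y i)
      rw [ds_comm N (Y i)] at e3
      calc lam (γ i * k i) (symmDiff (mv g₀ L) (Y i)) ≤ c * lam 1 (symmDiff (mv g₀ L) (Y i)) := e2
        _ ≤ c * (δ / (8 * c) + δ / (8 * c)) := by
            apply mul_le_mul_of_nonneg_left _ hc0.le
            exact e3.trans (add_le_add hg.le hj1.le)
        _ = δ / 4 := by field_simp; ring
    have d2 : lam (k i) (symmDiff (mv g a) (X i)) ≤ δ / 2 := by
      have := lam_sd_tri T (k i) (mv g a) (mv g L) (X i)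
      linarith
    obtain ⟨-, q2, -⟩ := md_between T ma mL (mX i) (meas_mv g mL)
      (hN _ _ (hLf _ ha') (hLf _ hgL)) (hN _ _ (hLf _ hgL) (hLf _ hL)) (hAX i) (hXL i) (k i)
      (h1 i) (h2 i) (h3 i) (h4 i) (by linarith)
    obtain ⟨r1, -, r3⟩ := md_between T ma mL (mX i) (meas_mv g ma)
      (hN _ _ (hLf _ ha') (hLf _ hga)) (hN _ _ (hLf _ hga) (hLf _ hL)) (hAX i) (hXL i) (k i)
      (h1 i) (h2 i) (h3 i) (h4 i) (by linarith)
    exact hS a L (hLf _ ha') (hLf _ hL) g hgΓ (hAL _) r1 r3 q2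
  · -- second case
    have hgLc : (mv g L)ᶜ ∈ M := hM.compl _ hgL
    have hgac : (mv g a)ᶜ ∈ M := hM.compl _ hga
    have d1 : lam (k i) (symmDiff (mv g L)ᶜ (X i)) ≤ δ / 4 := by
      have e1 : lam (k i) (symmDiff (mv g L)ᶜ (X i)) =
          lam (γ i * k i) (symmDiff (mv g₀ L)ᶜ (Y i)) := by
        rw [← lam_mv (γ i) (k i), mv_symm, mv_compl, eg]
      rw [e1]
      have e2 := (hc _ (hγD i) _ ((meas_mv g₀ mL).compl.symmDiff (mY i))).1
      have e3 := ds_tri T (mv g₀ L)ᶜ N (Y i)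
      rw [ds_comm N (Y i)] at e3
      calc lam (γ i * k i) (symmDiff (mv g₀ L)ᶜ (Y i))
          ≤ c * lam 1 (symmDiff (mv g₀ L)ᶜ (Y i)) := e2
        _ ≤ c * (δ / (8 * c) + δ / (8 * c)) := by
            apply mul_le_mul_of_nonneg_left _ hc0.le
            exact e3.trans (add_le_add hg.le hj1.le)
        _ = δ / 4 := by field_simp; ring
    have d2 : lam (k i) (symmDiff (mv g a)ᶜ (X i)) ≤ δ / 2 := by
      have := lam_sd_tri T (k i) (mv g a)ᶜ (mv g L)ᶜ (X i)
      rw [sd_compl] at this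
      linarith
    obtain ⟨q1, -, q3⟩ := md_between T ma mL (mX i) (meas_mv g mL).compl
      (hN _ _ (hLf _ ha') (hLf _ hgLc)) (hN _ _ (hLf _ hgLc) (hLf _ hL)) (hAX i) (hXL i) (k i)
      (h1 i) (h2 i) (h3 i) (h4 i) (by linarith)
    obtain ⟨-, r2, -⟩ := md_between T ma mL (mX i) (meas_mv g ma).compl
      (hN _ _ (hLf _ ha') (hLf _ hgac)) (hN _ _ (hLf _ hgac) (hLf _ hL)) (hAX i) (hXL i) (k i)
      (h1 i) (h2 i) (h3 i) (h4 i) (by linarith)
    have s1 : Sub (mv g L)ᶜ (mv (g * g) a) := by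
      have e1 : Sub Lᶜ (mv g a) := sub_compl_left.1 r2
      have e2 := sub_mv T mL.compl (meas_mv g ma) g e1
      rw [mv_compl, ← mv_mul] at e2
      exact e2
    have s2 : Sub (mv (g * g) L) L := by
      have e1 : Sub (mv g L) aᶜ := sub_compl_right.1 q1
      have e2 := sub_mv T (meas_mv g mL) ma.compl g e1
      rw [mv_compl, ← mv_mul] at e2
      exact sub_trans T e2 r2
    exact hS a L (hLf _ ha') (hLf _ hL) (g * g) (Γ.mul_mem hgΓ hgΓ) (hAL _)
      (sub_trans T q1 s1) (fun h => q3 (sub_trans T s1 h)) s2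

end Pool.Agent.H81.NS
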