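import Pool.Agent.H81.NS.Walls
import Pool.Agent.H61.NS.Leaf

/-!
The walls as leaves (problem MP_90715c_gt, NoSeparation).
-/

open Matrix Set Filter Topology MeasureTheory

namespace Pool.Agent.H81.NS

open Pool.Agent.H90.WC Pool.Agent.H81.TG

variable {Γ : Subgroup G} {K U : Set (OnePoint ℂ)}

theorem wl_sub_of_R {X Y : Set (OnePoint ℂ)} (h : R X Y) : Sub X Y :=
  B.sub_of_subset (subset_closure.trans (h.trans interior_subset))

theorem wl_pos (T : Tool) (h : Sep Γ K U) (f : G) (b : Bool) : 0 < lam 1 (Wl U f b) :=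
  (T.pos _ isOpen_interior (wall_int h f b)).trans_le (B.lam_mono T 1 interior_subset)

theorem wl_cpos (T : Tool) (h : Sep Γ K U) (f : G) (b : Bool) : 0 < lam 1 (Wl U f b)ᶜ := by
  rw [← Wl_not]
  exact wl_pos T h f _

theorem wl_lf (T : Tool) (h : Sep Γ K U) : ∀ f ∈ Γ, ∀ b, Lf Γ U (Wl U f b) := fun f hf b =>
  lf_wall h.op hf b (wl_pos T h f b) (wl_cpos T h f b)

theorem wl_neg (f : G) (b : Bool) : Wl U (-f) b = Wl U f b := by
  unfold Wl
  rw [B.mv_neg]

theorem wl_nst (h : Sep Γ K U) : ∀ f ∈ Γ, ∀ f' ∈ Γ, ∀ b b' : Bool,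
    B.Nst (Wl U f b) (Wl U f' b') := by
  have same : ∀ (f : G) (b b' : Bool), B.Nst (Wl U f b) (Wl U f b') := by
    intro f b b'
    by_cases hb : b = b'
    · rw [hb]
      exact Or.inl (B.sub_refl _)
    · have e : b' = !b := by cases b <;> cases b' <;> simp_all
      rw [e, Wl_not]
      refine Or.inr (Or.inr (Or.inl ?_))
      rw [compl_compl]
      exact B.sub_refl _
  intro f hf f' hf' b b'
  by_cases h1 : f' = f
  · rw [h1]
    exact same f b b'
  by_cases h2 : f' = -f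
  · rw [h2, wl_neg]
    exact same f b b'
  rcases wall_nest h hf hf' h1 h2 b b' with h3 | h3 | h3 | h3
  · exact Or.inl (wl_sub_of_R h3)
  · exact Or.inr (Or.inl (wl_sub_of_R h3))
  · exact Or.inr (Or.inr (Or.inl (wl_sub_of_R h3)))
  · exact Or.inr (Or.inr (Or.inr (wl_sub_of_R h3)))

theorem wl_not_sub_of_R (T : Tool) (h : Sep Γ K U) {f f' : G} {b b' : Bool}
    (hR : R (Wl U f b) (Wl U f' b')) : ¬ Sub (Wl U f' b') (Wl U f b) := by
  intro hs
  have h1 := T.pos _ (isOpen_interior.sdiff isClosed_closure) (wall_gap h f f' b b' hR)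
  have h2 : lam 1 (interior (Wl U f' b') \ closure (Wl U f b)) ≤
      lam 1 (Wl U f' b' \ Wl U f b) := by
    apply B.lam_mono T 1
    intro x hx
    exact ⟨interior_subset hx.1, fun h' => hx.2 (subset_closure h')⟩
  have h3 : lam 1 (Wl U f' b' \ Wl U f b) = 0 := hs
  linarith

/-- Two walls one of which is strictly contained in the other modulo null sets. -/
theorem wl_R (T : Tool) (h : Sep Γ K U) {f f' : G} (hf : f ∈ Γ) (hf' : f' ∈ Γ) {b b' : Bool}
    (hs : Sub (Wl U f b) (Wl U f' b')) (hn : ¬ Sub (Wl U f' b') (Wl U f b)) :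
    R (Wl U f b) (Wl U f' b') := by
  have m : MeasurableSet (Wl U f b) := wall_meas U h.op f b
  have m' : MeasurableSet (Wl U f' b') := wall_meas U h.op f' b'
  have z : lam 1 (Wl U f b \ Wl U f' b') = 0 := hs
  -- not disjoint
  have nd : ¬ Sub (Wl U f b) (Wl U f' b')ᶜ := by
    intro hd
    have e1 : lam 1 (Wl U f b ∩ Wl U f' b') = 0 := B.sub_compl_right_iff.1 hd
    have e2 := B.lam_inter_add_diff T 1 (Wl U f b) m'
    have e3 := wl_pos T h f b
    linarith
  have nc : ¬ Sub (Wl U f b)ᶜ (Wl U f' b') := by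
    intro hd
    have e1 : Sub (Wl U f' b')ᶜ (Wl U f b) := B.sub_compl_left.1 hd
    have e2 := B.lam_inter_add_diff T 1 (Wl U f' b')ᶜ m
    have e3 := wl_cpos T h f' b'
    have e4 : lam 1 ((Wl U f' b')ᶜ \ Wl U f b) = 0 := e1
    have e5 : (Wl U f' b')ᶜ ∩ Wl U f b = Wl U f b \ Wl U f' b' := by
      rw [inter_comm]; rfl
    rw [e5] at e2
    linarith
  have same : ∀ b', Sub (Wl U f b) (Wl U f b') → ¬ Sub (Wl U f b') (Wl U f b) →
      ¬ Sub (Wl U f b) (Wl U f b')ᶜ → False := by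
    intro b' s1 s2 s3
    by_cases hb : b' = b
    · rw [hb] at s2
      exact s2 (B.sub_refl _)
    · have e : b' = !b := by cases b <;> cases b' <;> simp_all
      rw [e, Wl_not, compl_compl] at s3
      exact s3 (B.sub_refl _)
  by_cases h1 : f' = f
  · rw [h1] at hs hn nd
    exact (same b' hs hn nd).elim
  by_cases h2 : f' = -f
  · rw [h2, wl_neg] at hs hn nd
    exact (same b' hs hn nd).elim
  rcases wall_nest h hf hf' h1 h2 b b' with h3 | h3 | h3 | h3
  · exact h3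
  · exact absurd hs (wl_not_sub_of_R T h h3)
  · exact absurd (wl_sub_of_R h3) nd
  · exact absurd (wl_sub_of_R h3) nc

theorem wl_ne (T : Tool) (h : Sep Γ K U) : ∀ f ∈ Γ, ∀ f' ∈ Γ, f' ≠ f → f' ≠ -f → ∀ b b' : Bool,
    Sub (Wl U f b) (Wl U f' b') → ¬ Sub (Wl U f' b') (Wl U f b) := by
  intro f hf f' hf' h1 h2 b b' hs hs'
  have m : MeasurableSet (Wl U f b) := wall_meas U h.op f b
  have m' : MeasurableSet (Wl U f' b') := wall_meas U h.op f' b'
  have z : lam 1 (Wl U f b \ Wl U f' b') = 0 := hs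
  rcases wall_nest h hf hf' h1 h2 b b' with h3 | h3 | h3 | h3
  · exact wl_not_sub_of_R T h h3 hs'
  · exact wl_not_sub_of_R T h h3 hs
  · have e1 : lam 1 (Wl U f b ∩ Wl U f' b') = 0 := B.sub_compl_right_iff.1 (wl_sub_of_R h3)
    have e2 := B.lam_inter_add_diff T 1 (Wl U f b) m'
    have e3 := wl_pos T h f b
    linarith
  · have e1 : Sub (Wl U f' b')ᶜ (Wl U f b) := B.sub_compl_left.1 (wl_sub_of_R h3)
    have e2 := B.lam_inter_add_diff T 1 (Wl U f' b')ᶜ m
    have e3 := wl_cpos T h f' b'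
    have e4 : lam 1 ((Wl U f' b')ᶜ \ Wl U f b) = 0 := e1
    have e5 : (Wl U f' b')ᶜ ∩ Wl U f b = Wl U f b \ Wl U f' b' := by
      rw [inter_comm]; rfl
    rw [e5] at e2
    linarith

end Pool.Agent.H81.NS
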