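import Pool.Agent.H81.NS.Prob
import Pool.Agent.H81.NS.Cov
import Pool.Agent.H81.NS.Har
import Pool.Agent.H81.NS.Dens
import Pool.Agent.H81.NS.Comp
import Pool.Agent.H33.NS.Wal
import Pool.Agent.H33.NS.Mid
import Pool.Agent.H33.NS.Gap
import Pool.Agent.H54.NS.Stab
import Pool.Agent.H66.NS.Rec
import Pool.Agent.H81.NS.Inf
import Pool.Agent.H98.NS.Cube

/-!
Assembly: wandering continua do not separate the sphere (problem MP_90715c_gt, NoSeparation).
-/

open Matrix Set Filter Topology MeasureTheory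

namespace Pool.Agent.H81.NS

open Pool.Agent.H90.WC Pool.Agent.H81.TG

theorem tool : Tool :=
  ⟨har_of cov, har1_of cov, pos_of mu0_ne_zero mu0_ne_top, inf_of cov mu0_ne_zero mu0_ne_top,
    dens_of mu0_ne_zero mu0_ne_top⟩

/-- There is no complementary component with connected complement of a wandering continuum, if
the continuum separates the sphere. -/
theorem no_sep {Γ : Subgroup G} {K U : Set (OnePoint ℂ)} (T : Tool) (h : Sep Γ K U) :
    False := by
  have hN := lf_nst T (wl_nst h)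
  have hC := lf_compact (Γ := Γ) (U := U) T hN
  have hW := wl_lf T h
  have hnb : ∀ (f : G) (b : Bool) (x : OnePoint ℂ), x ∉ mv f K →
      x ∈ interior (Wl U f b) ∨ x ∈ interior (Wl U f b)ᶜ := fun f b x hx => wall_nbhd h f b hx
  have hne := wl_ne T h
  have hS : ∀ A L, Lf Γ U A → Lf Γ U L → ∀ s ∈ Γ, Sub A L → Sub A (mv s A) →
      ¬ Sub (mv s A) A → ¬ Sub (mv s L) L := fun A L hA hL s hs h1 h2 h3 h4 =>
    B.squeeze T h.hyp hN hW hnb hA hL hs h1 h2 h3 h4
  have hStab : ∀ s ∈ Γ, ∀ L, Lf Γ U L → ds (mv s L) L = 0 → s = 1 ∨ s = -1 :=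
    fun s hs L hL h0 => B.stab T h.hyp hN hW hnb hne hL hs h0
  have hcoc := h.hyp.coc
  have hCl : ∀ f ∈ Γ, ∀ f' ∈ Γ, ∀ b b' : Bool, Sub (Wl U f b) (Wl U f' b') →
      ¬ Sub (Wl U f' b') (Wl U f b) → closure (Wl U f b) ⊆ interior (Wl U f' b') :=
    fun f hf f' hf' b b' h1 h2 => wl_R T h hf hf' h1 h2
  obtain ⟨M, hM, L, hL, A, hA, hm, hAL, -, hlim', hsep⟩ :=
    exists_data T hN hW hCl h.op hcoc hStab hC
  exact Cu.cube_row T hM (fun X hX Y hY => hN X Y (hM.leaf X hX) (hM.leaf Y hY)) hL hA hm hAL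
    hlim' hsep (fun δ hδ => no_middle T hcoc hN hS hC hM hL hA hAL hlim' hδ)
    (fun δ hδ => gaps T hcoc hN hStab hC hM hδ)

/-- The complement of a wandering continuum is connected. -/
theorem preconn_compl {Γ : Subgroup G} {K : Set (OnePoint ℂ)} (h : Hyp Γ K) :
    IsPreconnected Kᶜ := by
  by_contra hn
  obtain ⟨U, hU⟩ := exists_sep h hn
  exact no_sep tool hU

end Pool.Agent.H81.NS
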